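import Pool.Agent.Helper13.HD.Seq

/-!
# One sequence of pairs for the derived invariance of Hodge numbers: the main theorem
-/

set_option autoImplicit false

open Finset

namespace Pool.Agent.Helper13.HD

open Pool.Agent.Q173.GF
open Pool.Agent.Helper13.BW (Tower NearI)

universe u

/-- `(d + 1) ^ 2 ≤ exp (δ d)` for large `d` -/
theorem sq_le_exp {δ : ℝ} (hδ : 0 < δ) : ∃ D : ℕ, ∀ d : ℕ, D ≤ d →
    ((d : ℝ) + 1) ^ 2 ≤ Real.exp (δ * d) := by
  obtain ⟨D, hD⟩ := exists_nat_ge (24 / δ ^ 3)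
  refine ⟨D + 1, fun d hd => ?_⟩
  have h1 : (1 : ℝ) ≤ d := by exact_mod_cast (show 1 ≤ d by omega)
  have h2 : 24 / δ ^ 3 ≤ d := hD.trans (by exact_mod_cast (show D ≤ d by omega))
  have h3 : 24 ≤ δ ^ 3 * d := by
    rw [div_le_iff₀ (by positivity)] at h2
    linarith
  have h4 := Real.pow_div_factorial_le_exp (δ * d) (by positivity) 3
  have h5 : ((3 : ℕ).factorial : ℝ) = 6 := by norm_num [Nat.factorial]
  rw [h5] at h4
  refine le_trans ?_ h4
  rw [le_div_iff₀ (by norm_num)]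
  have h6 : ((d : ℝ) + 1) ^ 2 ≤ 4 * d ^ 2 := by nlinarith
  calc ((d : ℝ) + 1) ^ 2 * 6 ≤ 4 * (d : ℝ) ^ 2 * 6 := by linarith
    _ = 24 * (d : ℝ) ^ 2 := by ring
    _ ≤ (δ ^ 3 * (d : ℝ)) * (d : ℝ) ^ 2 := mul_le_mul_of_nonneg_right h3 (by positivity)
    _ = (δ * (d : ℝ)) ^ 3 := by ring

section

variable {V : Type u} (T : Theory V)

/-- the size of the grid in step `j` -/
def sz (X : ℕ → V) (m : ℕ → ℕ) (j : ℕ) : ℕ := T.dim (hat T X m j) + 1

/-- the lower bound for the exponent, for the varieties `A`, `B` (powers) and `X`, `Y` (new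
factors) -/
def gr (j : ℕ) (A B X Y : V) : ℕ :=
  8 ^ (j + 1) * (w T A (T.dim A + 1) (T.dim A + 1) + w T B (T.dim A + 1) (T.dim A + 1) + 2) *
    (w T X (T.dim A + 1) (T.dim A + 1) + w T Y (T.dim A + 1) (T.dim A + 1) + 2 ^ T.dim X)

/-- The exponents grow fast enough. -/
def Grow (X Y : ℕ → V) (m : ℕ → ℕ) : Prop :=
  ∀ j, gr T j (hat T X m j) (hat T Y m j) (X (j + 1)) (Y (j + 1)) ≤ m j

/-- the pairs with the smallest exponents -/
def HE (X Y : ℕ → V) : ℕ → V × V
  | 0 => (X 0, Y 0)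
  | j + 1 =>
    (T.prod (pw T (HE X Y j).1 (gr T j (HE X Y j).1 (HE X Y j).2 (X (j + 1)) (Y (j + 1))))
      (X (j + 1)),
     T.prod (pw T (HE X Y j).2 (gr T j (HE X Y j).1 (HE X Y j).2 (X (j + 1)) (Y (j + 1))))
      (Y (j + 1)))

theorem exists_grow (X Y : ℕ → V) : ∃ m : ℕ → ℕ, Grow T X Y m := by
  refine ⟨fun j => gr T j (HE T X Y j).1 (HE T X Y j).2 (X (j + 1)) (Y (j + 1)), ?_⟩
  have key : ∀ j, hat T X (fun j => gr T j (HE T X Y j).1 (HE T X Y j).2 (X (j + 1))
        (Y (j + 1))) j = (HE T X Y j).1 ∧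
      hat T Y (fun j => gr T j (HE T X Y j).1 (HE T X Y j).2 (X (j + 1))
        (Y (j + 1))) j = (HE T X Y j).2 := by
    intro j
    induction j with
    | zero => exact ⟨rfl, rfl⟩
    | succ j ih =>
      constructor
      · rw [hat, ih.1]
        rfl
      · rw [hat, ih.2]
        rfl
  intro j
  rw [(key j).1, (key j).2]

/-- the factors of the tower which starts at step `k` -/
def xs (X : ℕ → V) (m : ℕ → ℕ) (k x y : ℕ) : ℕ → ℕ
  | 0 => w T (hat T X m k) x y
  | j + 1 => w T (X (k + (j + 1))) x y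

def gs (X : ℕ → V) (m : ℕ → ℕ) (k : ℕ) : ℕ → ℕ
  | 0 => 2 ^ T.dim (hat T X m k)
  | j + 1 => 2 ^ T.dim (X (k + (j + 1)))

def us (X Y : ℕ → V) (m : ℕ → ℕ) (k j : ℕ) : ℕ :=
  w T (hat T X m (k + j)) (sz T X m (k + j)) (sz T X m (k + j)) +
    w T (hat T Y m (k + j)) (sz T X m (k + j)) (sz T X m (k + j)) + 2

def ts (X Y : ℕ → V) (m : ℕ → ℕ) (k x y : ℕ) : ℕ → ℕ
  | 0 => w T (hat T X m k) x y + w T (hat T Y m k) x y + 2 ^ T.dim (hat T X m k)
  | j + 1 => w T (X (k + (j + 1))) (sz T X m (k + j)) (sz T X m (k + j)) +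
      w T (Y (k + (j + 1))) (sz T X m (k + j)) (sz T X m (k + j)) + 2 ^ T.dim (X (k + (j + 1)))

variable {T} (hT : T.IsKnown)

theorem w_mono (X : V) {x y s : ℕ} (hx : x ≤ s) (hy : y ≤ s) : w T X x y ≤ w T X s s :=
  nv_mono _ _ hx hy

include hT

theorem m_pos {X Y : ℕ → V} {m : ℕ → ℕ} (hg : Grow T X Y m) (j : ℕ) : 1 ≤ m j := by
  refine le_trans ?_ (hg j)
  unfold gr
  exact Nat.mul_pos (Nat.mul_pos (by positivity) (by omega)) (by positivity)

theorem dim_ge {X Y : ℕ → V} {m : ℕ → ℕ} (h1 : 1 ≤ T.dim (X 0)) (hg : Grow T X Y m) (j : ℕ) :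
    j + 1 ≤ T.dim (hat T X m j) := by
  induction j with
  | zero => exact h1
  | succ j ih =>
    rw [dim_hat hT]
    have := m_pos hT hg j
    calc j + 1 + 1 ≤ (1 + 1) * (j + 1) := by omega
      _ ≤ (m j + 1) * T.dim (hat T X m j) := Nat.mul_le_mul (by omega) ih
      _ ≤ _ := Nat.le_add_right _ _

theorem sz_mono {X Y : ℕ → V} {m : ℕ → ℕ} (hg : Grow T X Y m) (k j : ℕ) :
    sz T X m k ≤ sz T X m (k + j) := by
  induction j with
  | zero => exact le_rfl
  | succ j ih =>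
    refine ih.trans ?_
    unfold sz
    have h := dim_hat hT X m (k + j)
    have e : k + (j + 1) = k + j + 1 := rfl
    rw [e, h]
    have h2 : T.dim (hat T X m (k + j)) ≤ (m (k + j) + 1) * T.dim (hat T X m (k + j)) :=
      Nat.le_mul_of_pos_left _ (by omega)
    omega

theorem tower {X Y : ℕ → V} {m : ℕ → ℕ} (h1 : 1 ≤ T.dim (X 0)) (hg : Grow T X Y m)
    (k : ℕ) {x y : ℕ} (hx' : x ≤ sz T X m k) (hy' : y ≤ sz T X m k) :
    Tower (fun j => 2 ^ T.dim (hat T X m (k + j))) (gs T X m k) (us T X Y m k)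
      (ts T X Y m k x y) (fun j => m (k + j)) (fun j => w T (hat T X m (k + j)) x y)
      (fun j => w T (hat T Y m (k + j)) x y) (xs T X m k x y) (xs T Y m k x y) where
  n0 := rfl
  ns := fun j => by
    change 2 ^ T.dim (hat T X m (k + j + 1)) =
      (2 ^ T.dim (hat T X m (k + j))) ^ (m (k + j) + 1) * 2 ^ T.dim (X (k + j + 1))
    rw [dim_hat hT, pow_add, ← pow_mul, mul_comm (T.dim (hat T X m (k + j)))]
  n2 := by
    have := dim_ge hT h1 hg k
    calc 2 = 2 ^ 1 := rfl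
      _ ≤ 2 ^ T.dim (hat T X m (k + 0)) := Nat.pow_le_pow_right (by norm_num) (by
        rw [Nat.add_zero]; omega)
  a0 := rfl
  as := fun j => w_hat hT X m (k + j) x y
  b0 := rfl
  bs := fun j => w_hat hT Y m (k + j) x y
  hg := fun j => by
    cases j with
    | zero =>
      refine ⟨pow_pos (by norm_num) _, ?_⟩
      change 2 ^ T.dim (hat T X m k) ≤
        w T (hat T X m k) x y + w T (hat T Y m k) x y + 2 ^ T.dim (hat T X m k)
      exact Nat.le_add_left _ _
    | succ j =>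
      refine ⟨pow_pos (by norm_num) _, ?_⟩
      change 2 ^ T.dim (X (k + (j + 1))) ≤ _ + _ + 2 ^ T.dim (X (k + (j + 1)))
      exact Nat.le_add_left _ _
  hx := fun j => by
    cases j with
    | zero =>
      change w T (hat T X m k) x y ≤
        w T (hat T X m k) x y + w T (hat T Y m k) x y + 2 ^ T.dim (hat T X m k)
      exact (Nat.le_add_right _ _).trans (Nat.le_add_right _ _)
    | succ j =>
      have h := w_mono (T := T) (X (k + (j + 1))) (hx'.trans (sz_mono hT hg k j))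
        (hy'.trans (sz_mono hT hg k j))
      change w T (X (k + (j + 1))) x y ≤ w T (X (k + (j + 1))) _ _ + _ + _
      exact h.trans ((Nat.le_add_right _ _).trans (Nat.le_add_right _ _))
  hy := fun j => by
    cases j with
    | zero =>
      change w T (hat T Y m k) x y ≤
        w T (hat T X m k) x y + w T (hat T Y m k) x y + 2 ^ T.dim (hat T X m k)
      exact (Nat.le_add_left _ _).trans (Nat.le_add_right _ _)
    | succ j =>
      have h := w_mono (T := T) (Y (k + (j + 1))) (hx'.trans (sz_mono hT hg k j))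
        (hy'.trans (sz_mono hT hg k j))
      change w T (Y (k + (j + 1))) x y ≤ _ + w T (Y (k + (j + 1))) _ _ + _
      exact h.trans ((Nat.le_add_left _ _).trans (Nat.le_add_right _ _))
  ha := fun j => by
    have h := w_mono (T := T) (hat T X m (k + j)) (hx'.trans (sz_mono hT hg k j))
        (hy'.trans (sz_mono hT hg k j))
    change w T (hat T X m (k + j)) x y ≤ w T (hat T X m (k + j)) _ _ + _ + 2
    exact h.trans ((Nat.le_add_right _ _).trans (Nat.le_add_right _ _))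
  hb := fun j => by
    have h := w_mono (T := T) (hat T Y m (k + j)) (hx'.trans (sz_mono hT hg k j))
        (hy'.trans (sz_mono hT hg k j))
    change w T (hat T Y m (k + j)) x y ≤ _ + w T (hat T Y m (k + j)) _ _ + 2
    exact h.trans ((Nat.le_add_left _ _).trans (Nat.le_add_right _ _))
  hu := fun j => by
    unfold us
    omega
  hm := fun j => by
    refine le_trans ?_ (hg (k + j))
    change 8 ^ (j + 1) * us T X Y m k j * ts T X Y m k x y (j + 1) ≤
      8 ^ (k + j + 1) * us T X Y m k j * ts T X Y m k x y (j + 1)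
    have e1 : (8 : ℕ) ^ (j + 1) ≤ 8 ^ (k + j + 1) := Nat.pow_le_pow_right (by norm_num) (by omega)
    exact Nat.mul_le_mul_right _ (Nat.mul_le_mul_right _ e1)

theorem nearI {X Y : ℕ → V} {m : ℕ → ℕ} (h1 : 1 ≤ T.dim (X 0)) (hg : Grow T X Y m)
    (hXY : ∀ i, T.eqv (X i) (Y i))
    (hC : ∀ ε : ℝ, 0 < ε → ∀ i : ℕ, ∃ j, i ≤ j ∧ ClosePair T ε (hat T X m j) (hat T Y m j))
    (k : ℕ) {x y : ℕ} (hx : 1 ≤ x) (hy : 1 ≤ y) :
    NearI (fun j => 2 ^ T.dim (hat T X m (k + j))) (fun j => w T (hat T X m (k + j)) x y)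
      (fun j => w T (hat T Y m (k + j)) x y) := by
  intro ε hε i
  set M : ℝ := ((x + y : ℕ) : ℝ) with hM
  have hM1 : 1 ≤ M := by
    rw [hM]
    exact_mod_cast (show 1 ≤ x + y by omega)
  have hM0 : 0 < M := by linarith
  have hl : 0 ≤ Real.log M := Real.log_nonneg hM1
  set c : ℝ := Real.log 2 with hc
  have hc0 : 0 < c := Real.log_pos (by norm_num)
  set ε' : ℝ := ε * c / (2 * (1 + 2 * Real.log M)) with hε'
  have hε'0 : 0 < ε' := by positivity
  have hε'1 : ε' * (1 + 2 * Real.log M) = ε * c / 2 := by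
    rw [hε']
    field_simp
  obtain ⟨D, hD⟩ := sq_le_exp (δ := ε * c / 2) (by positivity)
  obtain ⟨j', hj', hcl⟩ := hC ε' hε'0 (k + i + D)
  obtain ⟨j, rfl⟩ := Nat.exists_eq_add_of_le (show k ≤ j' by omega)
  refine ⟨j, by omega, ?_⟩
  set d := T.dim (hat T X m (k + j)) with hd
  have hdD : D ≤ d := by
    have := dim_ge hT h1 hg (k + j)
    omega
  have hsq := hD d hdD
  obtain ⟨k1, k2⟩ := w_close hT (eqv_hat hT hXY m (k + j)) hcl hx hy
  rw [← hd, ← hM] at k1 k2
  have hfac : Real.exp (ε' * d) * (M ^ (ε' * (d : ℝ))) ^ 2 * ((d : ℝ) + 1) ^ 2 ≤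
      (((2 ^ d : ℕ) : ℝ)) ^ ε := by
    have e1 : (M ^ (ε' * (d : ℝ))) ^ 2 = Real.exp (2 * (ε' * d * Real.log M)) := by
      rw [Real.rpow_def_of_pos hM0, ← Real.exp_nat_mul]
      congr 1
      push_cast
      ring
    have e2 : (((2 ^ d : ℕ) : ℝ)) ^ ε = Real.exp (ε * c * d) := by
      push_cast
      rw [Real.rpow_def_of_pos (by positivity), Real.log_pow]
      congr 1
      ring
    rw [e1, e2, ← Real.exp_add]
    have e3 : ε' * d + 2 * (ε' * d * Real.log M) = ε * c / 2 * d := by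
      have : ε' * d + 2 * (ε' * d * Real.log M) = ε' * (1 + 2 * Real.log M) * d := by ring
      rw [this, hε'1]
    rw [e3]
    calc Real.exp (ε * c / 2 * d) * ((d : ℝ) + 1) ^ 2
        ≤ Real.exp (ε * c / 2 * d) * Real.exp (ε * c / 2 * d) := by gcongr
      _ = Real.exp (ε * c * d) := by
        rw [← Real.exp_add]
        congr 1
        ring
  constructor
  · refine k1.trans ?_
    exact mul_le_mul_of_nonneg_right hfac (Nat.cast_nonneg _)
  · refine k2.trans ?_
    exact mul_le_mul_of_nonneg_right hfac (Nat.cast_nonneg _)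

/-- Close numbers for infinitely many members imply equal numbers for all members. -/
theorem main_hat {X Y : ℕ → V} {m : ℕ → ℕ} (h1 : 1 ≤ T.dim (X 0)) (hg : Grow T X Y m)
    (hXY : ∀ i, T.eqv (X i) (Y i))
    (hC : ∀ ε : ℝ, 0 < ε → ∀ i : ℕ, ∃ j, i ≤ j ∧ ClosePair T ε (hat T X m j) (hat T Y m j))
    (k : ℕ) : T.h (hat T X m k) = T.h (hat T Y m k) := by
  refine h_eq hT (eqv_hat hT hXY m k) ?_
  intro x y hx1 hx2 hy1 hy2
  have hTw := tower hT h1 hg k (x := x) (y := y) hx2 hy2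
  have hpos : ∀ (Z : ℕ → V), ∀ j, 0 < xs T Z m k x y j := by
    intro Z j
    cases j with
    | zero => exact w_pos hT _ hx1 hy1
    | succ j => exact w_pos hT _ hx1 hy1
  exact hTw.main (hpos X) (hpos Y) (nearI hT h1 hg hXY hC k hx1 hy1) 0

/-- Equal numbers for the members of the sequence imply equal numbers for the factors. -/
theorem main_factor {X Y : ℕ → V} {m : ℕ → ℕ} (hXY : ∀ i, T.eqv (X i) (Y i))
    (h : ∀ k, T.h (hat T X m k) = T.h (hat T Y m k)) (i : ℕ) : T.h (X i) = T.h (Y i) := by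
  cases i with
  | zero => exact h 0
  | succ i =>
    refine h_eq hT (hXY _) ?_
    intro x y hx1 _ hy1 _
    have e1 := w_eq hT (eqv_hat hT hXY m (i + 1)) (h (i + 1)) x y
    have e2 := w_eq hT (eqv_hat hT hXY m i) (h i) x y
    rw [w_hat hT, w_hat hT, e2] at e1
    exact Nat.eq_of_mul_eq_mul_left (pow_pos (w_pos hT _ hx1 hy1) _) e1

/-- Equal numbers for the factors imply equal numbers for the members of the sequence. -/
theorem hat_of_factor {X Y : ℕ → V} (m : ℕ → ℕ) (hXY : ∀ i, T.eqv (X i) (Y i))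
    (h : ∀ i, T.h (X i) = T.h (Y i)) (j : ℕ) : T.h (hat T X m j) = T.h (hat T Y m j) := by
  induction j with
  | zero => exact h 0
  | succ j ih =>
    refine h_eq hT (eqv_hat hT hXY m (j + 1)) ?_
    intro x y _ _ _ _
    rw [w_hat hT, w_hat hT, w_eq hT (eqv_hat hT hXY m j) ih x y,
      w_eq hT (hXY (j + 1)) (h (j + 1)) x y]

/-! ### the zero-one law -/

omit hT in
/-- If `x i ≠ y i` for some `i`, then at most `N ^ n` of the vectors `e` of `n + 1` exponents
between `1` and `N` satisfy `∏ x i ^ e i = ∏ y i ^ e i`. -/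
theorem zero_one_num {n : ℕ} (N : ℕ) (x y : Fin (n + 1) → ℕ) (hx : ∀ i, 0 < x i)
    (i₀ : Fin (n + 1)) (h : x i₀ ≠ y i₀) (E : Set (Fin (n + 1) → Fin N))
    (hE : ∀ e ∈ E, ∏ i, x i ^ ((e i : ℕ) + 1) = ∏ i, y i ^ ((e i : ℕ) + 1)) :
    Nat.card E ≤ N ^ n := by
  have hinj : Function.Injective (fun e : E => i₀.removeNth (α := fun _ => Fin N) e.1) := by
    rintro ⟨e, he⟩ ⟨e', he'⟩ hee
    have hoff : ∀ j, e (i₀.succAbove j) = e' (i₀.succAbove j) := fun j => congrFun hee j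
    have h1 := hE e he
    have h2 := hE e' he'
    rw [Fin.prod_univ_succAbove _ i₀, Fin.prod_univ_succAbove _ i₀] at h1 h2
    simp only [hoff] at h1
    set A := ∏ j, x (i₀.succAbove j) ^ ((e' (i₀.succAbove j) : ℕ) + 1) with hA
    set B := ∏ j, y (i₀.succAbove j) ^ ((e' (i₀.succAbove j) : ℕ) + 1) with hB
    have hA0 : 0 < A := Finset.prod_pos fun j _ => pow_pos (hx _) _
    have hkey : ∀ u v : ℕ, u < v → x i₀ ^ u * A = y i₀ ^ u * B → x i₀ ^ v * A = y i₀ ^ v * B →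
        False := by
      intro u v huv k1 k2
      obtain ⟨d, rfl⟩ := Nat.exists_eq_add_of_lt huv
      have k3 : x i₀ ^ (d + 1) * (x i₀ ^ u * A) = y i₀ ^ (d + 1) * (x i₀ ^ u * A) := by
        have : x i₀ ^ (u + d + 1) * A = x i₀ ^ (d + 1) * (x i₀ ^ u * A) := by ring
        rw [← this, k2, k1]
        ring
      have k4 : 0 < x i₀ ^ u * A := Nat.mul_pos (pow_pos (hx _) _) hA0
      have k5 := Nat.eq_of_mul_eq_mul_right k4 k3
      exact h (Nat.pow_left_injective (by omega) k5)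
    have hi0 : e i₀ = e' i₀ := by
      apply Fin.ext
      by_contra hne
      rcases Nat.lt_or_gt_of_ne hne with hlt | hlt
      · exact hkey _ _ (by omega) h1 h2
      · exact hkey _ _ (by omega) h2 h1
    apply Subtype.ext
    funext i
    rcases eq_or_ne i i₀ with rfl | hi
    · exact hi0
    · obtain ⟨j, rfl⟩ := Fin.exists_succAbove_eq hi
      exact hoff j
  have h1 := Nat.card_le_card_of_injective _ hinj
  have h2 : Nat.card (Fin n → Fin N) = N ^ n := by simp
  exact h1.trans h2.le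

theorem zero_one {n : ℕ} (N : ℕ) (X Y : Fin (n + 1) → V) (hXY : ∀ i, T.eqv (X i) (Y i))
    (i₀ : Fin (n + 1)) (h : T.h (X i₀) ≠ T.h (Y i₀)) :
    Nat.card {e : Fin (n + 1) → Fin N // T.h (pr T n (fun i => pw T (X i) (e i))) =
      T.h (pr T n (fun i => pw T (Y i) (e i)))} ≤ N ^ n := by
  have hne : ∃ x y : ℕ, 1 ≤ x ∧ 1 ≤ y ∧ w T (X i₀) x y ≠ w T (Y i₀) x y := by
    by_contra hcon
    push Not at hcon
    exact h (h_eq hT (hXY i₀) (fun x y h1 _ h2 _ => hcon x y h1 h2))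
  obtain ⟨x, y, hx, hy, hxy⟩ := hne
  refine zero_one_num N (fun i => w T (X i) x y) (fun i => w T (Y i) x y)
    (fun i => w_pos hT _ hx hy) i₀ hxy
    {e | T.h (pr T n (fun i => pw T (X i) (e i))) = T.h (pr T n (fun i => pw T (Y i) (e i)))} ?_
  intro e he
  have h1 := w_eq hT (eqv_pr hT (fun i => eqv_pw hT (hXY i) (e i))) he x y
  rw [w_pr hT, w_pr hT] at h1
  simp only [w_pw hT] at h1
  exact h1

/-! ### countability -/

omit hT in
theorem countable_supp : {h : ℕ → ℕ → ℕ | ∃ n, Supp n h}.Countable := by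
  have h1 : {h : ℕ → ℕ → ℕ | ∃ n, Supp n h} = ⋃ n, {h | Supp n h} := by
    ext h
    simp
  rw [h1]
  refine Set.countable_iUnion fun n => ?_
  have : Function.Injective (fun h : {h : ℕ → ℕ → ℕ | Supp n h} =>
      fun (p q : Fin (n + 1)) => h.1 p q) := by
    rintro ⟨h, hh⟩ ⟨h', hh'⟩ heq
    apply Subtype.ext
    funext p q
    by_cases hc : p < n + 1 ∧ q < n + 1
    · exact congrFun (congrFun heq ⟨p, hc.1⟩) ⟨q, hc.2⟩
    · have hpq : n < p ∨ n < q := by omega
      change h p q = h' p q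
      rw [hh p q hpq, hh' p q hpq]
  exact this.countable

/-- All pairs of equivalent varieties, up to the numbers, in one sequence. -/
theorem exists_enum : ∃ X Y : ℕ → V, 1 ≤ T.dim (X 0) ∧ (∀ i, T.eqv (X i) (Y i)) ∧
    ∀ A B, T.eqv A B → ∃ i, T.h (X i) = T.h A ∧ T.h (Y i) = T.h B := by
  obtain ⟨E, hE⟩ := hT.curve
  let S : Set ((ℕ → ℕ → ℕ) × (ℕ → ℕ → ℕ)) :=
    {z | ∃ A B, T.eqv A B ∧ T.h A = z.1 ∧ T.h B = z.2}
  have hS : S.Countable := by
    refine (countable_supp.prod countable_supp).mono ?_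
    rintro ⟨h, h'⟩ ⟨A, B, -, rfl, rfl⟩
    exact ⟨⟨_, hT.supp A⟩, ⟨_, hT.supp B⟩⟩
  have hne : S.Nonempty := ⟨(T.h E, T.h E), E, E, hT.refl E, rfl, rfl⟩
  obtain ⟨f, hf⟩ := hS.exists_eq_range hne
  have hf' : ∀ i, f i ∈ S := fun i => by rw [hf]; exact Set.mem_range_self i
  choose A B hAB hA hB using hf'
  refine ⟨fun i => match i with | 0 => E | i + 1 => A i, fun i => match i with
    | 0 => E | i + 1 => B i, ?_, ?_, ?_⟩
  · exact hE.ge
  · intro i
    cases i with
    | zero => exact hT.refl E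
    | succ i => exact hAB i
  · intro C D hCD
    have hmem : (T.h C, T.h D) ∈ S := ⟨C, D, hCD, rfl, rfl⟩
    rw [hf] at hmem
    obtain ⟨i, hi⟩ := hmem
    refine ⟨i + 1, ?_, ?_⟩
    · change T.h (A i) = T.h C
      rw [hA, hi]
    · change T.h (B i) = T.h D
      rw [hB, hi]

end

end Pool.Agent.Helper13.HD
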