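import Pool.Graph.R_pool_sql_team_seeded_3997aac3.Q173.GF.Main
import Pool.Agent.Helper13.BW.Num

/-!
# One sequence of pairs for the derived invariance of Hodge numbers
-/

set_option autoImplicit false

open Finset Polynomial

namespace Pool.Agent.Helper13.HD

open Pool.Agent.Q173.GF
open Pool.Agent.Helper13.BW (Tower NearI)

universe u

/-! ### values at natural numbers -/

/-- The value of the generating function at natural numbers. -/
def nv (n : ℕ) (h : ℕ → ℕ → ℕ) (x y : ℕ) : ℕ :=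
  ∑ p ∈ range (n + 1), ∑ q ∈ range (n + 1), h p q * x ^ q * y ^ p

theorem nv_cast (n : ℕ) (h : ℕ → ℕ → ℕ) (x y : ℕ) : (nv n h x y : ℝ) = val n h x y := by
  rw [val_eq]
  unfold nv
  push_cast
  rfl

theorem nv_mono (n : ℕ) (h : ℕ → ℕ → ℕ) {x y s : ℕ} (hx : x ≤ s) (hy : y ≤ s) :
    nv n h x y ≤ nv n h s s := by
  unfold nv
  refine Finset.sum_le_sum fun p _ => Finset.sum_le_sum fun q _ => ?_
  exact Nat.mul_le_mul (Nat.mul_le_mul_left _ (Nat.pow_le_pow_left hx _))
    (Nat.pow_le_pow_left hy _)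

/-- A polynomial with the given coefficients. -/
theorem coeffs_eq {n : ℕ} {c c' : ℕ → ℕ}
    (h : ∀ x : ℕ, 1 ≤ x → x ≤ n + 1 →
      ∑ q ∈ range (n + 1), c q * x ^ q = ∑ q ∈ range (n + 1), c' q * x ^ q) :
    ∀ q, q ≤ n → c q = c' q := by
  let f : ℤ[X] := ∑ q ∈ range (n + 1), C (c q : ℤ) * X ^ q
  let g : ℤ[X] := ∑ q ∈ range (n + 1), C (c' q : ℤ) * X ^ q
  have hdeg : ∀ d : ℕ → ℕ, (∑ q ∈ range (n + 1), C (d q : ℤ) * X ^ q : ℤ[X]).degree <
      ((Finset.Icc 1 (n + 1)).image (fun x : ℕ => (x : ℤ))).card := by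
    intro d
    rw [Finset.card_image_of_injective _ Nat.cast_injective, Nat.card_Icc]
    refine lt_of_le_of_lt (Polynomial.degree_sum_le _ _) ?_
    rw [Finset.sup_lt_iff (by exact WithBot.bot_lt_coe _)]
    intro q hq
    refine lt_of_le_of_lt (Polynomial.degree_C_mul_X_pow_le _ _) ?_
    have := Finset.mem_range.1 hq
    exact_mod_cast (show q < n + 1 + 1 - 1 by omega)
  have hfg : f = g := by
    refine Polynomial.eq_of_degrees_lt_of_eval_finset_eq _ (hdeg c) (hdeg c') ?_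
    intro z hz
    obtain ⟨x, hx, rfl⟩ := Finset.mem_image.1 hz
    obtain ⟨h1, h2⟩ := Finset.mem_Icc.1 hx
    simp only [f, g, eval_finsetSum, eval_mul, eval_C, eval_pow, eval_X]
    exact_mod_cast h x h1 h2
  intro q hq
  have h1 : f.coeff q = g.coeff q := by rw [hfg]
  have hco : ∀ d : ℕ → ℕ, (∑ q ∈ range (n + 1), C (d q : ℤ) * X ^ q : ℤ[X]).coeff q = d q := by
    intro d
    rw [finsetSum_coeff]
    simp only [coeff_C_mul, coeff_X_pow]
    rw [Finset.sum_eq_single q]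
    · simp
    · intro b _ hb
      rw [if_neg (fun h => hb h.symm), mul_zero]
    · intro h2
      exact absurd (Finset.mem_range.2 (by omega)) h2
  have h2 : f.coeff q = (c q : ℤ) := hco c
  have h3 : g.coeff q = (c' q : ℤ) := hco c'
  rw [h2, h3] at h1
  exact_mod_cast h1

/-- The numbers are determined by the values at the points of a grid. -/
theorem eq_of_nv {n : ℕ} {h h' : ℕ → ℕ → ℕ} (hs : Supp n h) (hs' : Supp n h')
    (hv : ∀ x y : ℕ, 1 ≤ x → x ≤ n + 1 → 1 ≤ y → y ≤ n + 1 → nv n h x y = nv n h' x y) :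
    h = h' := by
  have h1 : ∀ y : ℕ, 1 ≤ y → y ≤ n + 1 → ∀ q, q ≤ n →
      ∑ p ∈ range (n + 1), h p q * y ^ p = ∑ p ∈ range (n + 1), h' p q * y ^ p := by
    intro y hy1 hy2
    apply coeffs_eq
    intro x hx1 hx2
    have h2 := hv x y hx1 hx2 hy1 hy2
    unfold nv at h2
    rw [Finset.sum_comm, Finset.sum_comm (s := range (n + 1)) (t := range (n + 1))
      (f := fun p q => h' p q * x ^ q * y ^ p)] at h2
    simp only [Finset.sum_mul]
    calc ∑ q ∈ range (n + 1), ∑ p ∈ range (n + 1), h p q * y ^ p * x ^ q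
        = ∑ q ∈ range (n + 1), ∑ p ∈ range (n + 1), h p q * x ^ q * y ^ p :=
          Finset.sum_congr rfl fun q _ => Finset.sum_congr rfl fun p _ => by ring
      _ = ∑ q ∈ range (n + 1), ∑ p ∈ range (n + 1), h' p q * x ^ q * y ^ p := h2
      _ = _ := Finset.sum_congr rfl fun q _ => Finset.sum_congr rfl fun p _ => by ring
  funext p q
  by_cases hc : p ≤ n ∧ q ≤ n
  · exact coeffs_eq (n := n) (c := fun p => h p q) (c' := fun p => h' p q)
      (fun y hy1 hy2 => h1 y hy1 hy2 q hc.2) p hc.1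
  · rw [hs p q (by omega), hs' p q (by omega)]

section

variable {V : Type u} (T : Theory V)

/-- The value of the generating function of `X`. -/
def w (X : V) (x y : ℕ) : ℕ := nv (T.dim X) (T.h X) x y

/-- `X ^ (k + 1)` -/
def pw (X : V) : ℕ → V
  | 0 => X
  | k + 1 => T.prod (pw X k) X

/-- `X'_0 = X_0`, `X'_{j+1} = X'_j ^ (m_j + 1) × X_{j+1}`. -/
def hat (X : ℕ → V) (m : ℕ → ℕ) : ℕ → V
  | 0 => X 0
  | j + 1 => T.prod (pw T (hat X m j) (m j)) (X (j + 1))

/-- The product of `n + 1` varieties. -/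
def pr : ∀ n : ℕ, (Fin (n + 1) → V) → V
  | 0, X => X 0
  | n + 1, X => T.prod (X 0) (pr n (fun i => X i.succ))

/-- The numbers of `X` and of `Y` (of the same dimension `d`) agree up to the factor `exp (ε d)` and
shifts of both indices by at most `ε d`. -/
def ClosePair (ε : ℝ) (X Y : V) : Prop := ∀ p q,
  (T.h X p q : ℝ) ≤ Real.exp (ε * T.dim X) * near (T.dim X) (T.h Y) (ε * T.dim X) p q ∧
  (T.h Y p q : ℝ) ≤ Real.exp (ε * T.dim X) * near (T.dim X) (T.h X) (ε * T.dim X) p q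

variable {T} (hT : T.IsKnown)

include hT

theorem w_prod (X Y : V) (x y : ℕ) : w T (T.prod X Y) x y = w T X x y * w T Y x y := by
  have h := hT.v_prod X Y x y
  unfold Theory.v at h
  rw [← nv_cast, ← nv_cast, ← nv_cast] at h
  exact_mod_cast h

theorem w_pos (X : V) {x y : ℕ} (hx : 1 ≤ x) (hy : 1 ≤ y) : 0 < w T X x y := by
  have h := hT.v_pos X (x := x) (y := y) (by exact_mod_cast hx) (by exact_mod_cast hy)
  unfold Theory.v at h
  rw [← nv_cast] at h
  exact_mod_cast h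

theorem w_pw (X : V) (k x y : ℕ) : w T (pw T X k) x y = w T X x y ^ (k + 1) := by
  induction k with
  | zero => simp [pw]
  | succ k ih =>
    rw [pw, w_prod hT, ih]
    ring

theorem w_hat (X : ℕ → V) (m : ℕ → ℕ) (j x y : ℕ) :
    w T (hat T X m (j + 1)) x y = w T (hat T X m j) x y ^ (m j + 1) * w T (X (j + 1)) x y := by
  rw [hat, w_prod hT, w_pw hT]

theorem w_pr : ∀ {n : ℕ} (X : Fin (n + 1) → V) (x y : ℕ),
    w T (pr T n X) x y = ∏ i, w T (X i) x y
  | 0, X, x, y => by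
    have : ∏ i, w T (X i) x y = w T (X 0) x y := by simp
    rw [this]
    rfl
  | n + 1, X, x, y => by
    rw [Fin.prod_univ_succ, pr, w_prod hT, w_pr]

theorem dim_pw (X : V) (k : ℕ) : T.dim (pw T X k) = (k + 1) * T.dim X := by
  induction k with
  | zero => simp [pw]
  | succ k ih =>
    rw [pw, hT.dim_prod, ih]
    ring

theorem dim_hat (X : ℕ → V) (m : ℕ → ℕ) (j : ℕ) :
    T.dim (hat T X m (j + 1)) = (m j + 1) * T.dim (hat T X m j) + T.dim (X (j + 1)) := by
  rw [hat, hT.dim_prod, dim_pw hT]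

theorem eqv_pw {X Y : V} (h : T.eqv X Y) (k : ℕ) : T.eqv (pw T X k) (pw T Y k) := by
  induction k with
  | zero => exact h
  | succ k ih => exact hT.eqv_prod _ _ _ _ ih h

theorem eqv_hat {X Y : ℕ → V} (h : ∀ i, T.eqv (X i) (Y i)) (m : ℕ → ℕ) (j : ℕ) :
    T.eqv (hat T X m j) (hat T Y m j) := by
  induction j with
  | zero => exact h 0
  | succ j ih => exact hT.eqv_prod _ _ _ _ (eqv_pw hT ih _) (h _)

theorem eqv_pr : ∀ {n : ℕ} {X Y : Fin (n + 1) → V}, (∀ i, T.eqv (X i) (Y i)) →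
    T.eqv (pr T n X) (pr T n Y)
  | 0, _, _, h => h 0
  | _ + 1, _, _, h => hT.eqv_prod _ _ _ _ (h 0) (eqv_pr (fun i => h i.succ))

/-- Equal values at the grid give equal numbers. -/
theorem h_eq {X Y : V} (hXY : T.eqv X Y)
    (h : ∀ x y : ℕ, 1 ≤ x → x ≤ T.dim X + 1 → 1 ≤ y → y ≤ T.dim X + 1 → w T X x y = w T Y x y) :
    T.h X = T.h Y := by
  have hd := hT.eqv_dim X Y hXY
  refine eq_of_nv (n := T.dim X) (hT.supp X) (by rw [hd]; exact hT.supp Y) ?_
  intro x y h1 h2 h3 h4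
  have := h x y h1 h2 h3 h4
  unfold w at this
  rw [this, hd]

theorem w_eq {X Y : V} (hXY : T.eqv X Y) (h : T.h X = T.h Y) (x y : ℕ) :
    w T X x y = w T Y x y := by
  unfold w
  rw [hT.eqv_dim X Y hXY, h]

/-- Equal numbers are close. -/
theorem close_of_eq {X Y : V} (hXY : T.eqv X Y) (h : T.h X = T.h Y) {ε : ℝ} (hε : 0 < ε) :
    ClosePair T ε X Y := by
  have hd := hT.eqv_dim X Y hXY
  have key : ∀ p q, (T.h X p q : ℝ) ≤
      Real.exp (ε * T.dim X) * near (T.dim X) (T.h X) (ε * T.dim X) p q := by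
    intro p q
    have h0 : (0 : ℝ) ≤ ε * T.dim X := by positivity
    by_cases hpq : p ≤ T.dim X ∧ q ≤ T.dim X
    · have h1 : T.h X p q ≤ near (T.dim X) (T.h X) (ε * T.dim X) p q := by
        classical
        unfold near
        refine Finset.single_le_sum (f := fun i : ℕ × ℕ => T.h X i.1 i.2)
          (fun _ _ => Nat.zero_le _) (a := (p, q)) ?_
        rw [Finset.mem_filter, Finset.mem_product, Finset.mem_range, Finset.mem_range]
        refine ⟨⟨by dsimp; omega, by dsimp; omega⟩, ?_, ?_⟩ <;> simpa using h0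
      have h2 : (T.h X p q : ℝ) ≤ near (T.dim X) (T.h X) (ε * T.dim X) p q := by exact_mod_cast h1
      have h3 : (1 : ℝ) ≤ Real.exp (ε * T.dim X) := Real.one_le_exp h0
      have h4 : (0 : ℝ) ≤ near (T.dim X) (T.h X) (ε * T.dim X) p q := Nat.cast_nonneg _
      nlinarith
    · rw [hT.supp X p q (by omega), Nat.cast_zero]
      positivity
  intro p q
  rw [← h]
  exact ⟨key p q, key p q⟩

/-- Close numbers give close values. -/
theorem w_close {X Y : V} (hXY : T.eqv X Y) {ε : ℝ} (hc : ClosePair T ε X Y) {x y : ℕ}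
    (hx : 1 ≤ x) (hy : 1 ≤ y) :
    (w T X x y : ℝ) ≤ Real.exp (ε * T.dim X) * (((x + y : ℕ) : ℝ) ^ (ε * T.dim X)) ^ 2 *
        ((T.dim X : ℝ) + 1) ^ 2 * w T Y x y ∧
    (w T Y x y : ℝ) ≤ Real.exp (ε * T.dim X) * (((x + y : ℕ) : ℝ) ^ (ε * T.dim X)) ^ 2 *
        ((T.dim X : ℝ) + 1) ^ 2 * w T X x y := by
  have hd := hT.eqv_dim X Y hXY
  have hx' : (1 : ℝ) ≤ x := by exact_mod_cast hx
  have hy' : (1 : ℝ) ≤ y := by exact_mod_cast hy
  have hM : (1 : ℝ) ≤ ((x + y : ℕ) : ℝ) := by push_cast; linarith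
  have hxM : (x : ℝ) ≤ ((x + y : ℕ) : ℝ) := by push_cast; linarith
  have hyM : (y : ℝ) ≤ ((x + y : ℕ) : ℝ) := by push_cast; linarith
  have hxM' : (x : ℝ)⁻¹ ≤ ((x + y : ℕ) : ℝ) := (inv_le_one_of_one_le₀ hx').trans hM
  have hyM' : (y : ℝ)⁻¹ ≤ ((x + y : ℕ) : ℝ) := (inv_le_one_of_one_le₀ hy').trans hM
  have h1 := val_le (n := T.dim X) (h := T.h X) (h' := T.h Y) (K := Real.exp (ε * T.dim X))
    (t := ε * T.dim X) (Real.exp_pos _).le (by linarith) (by linarith) hM hxM hxM' hyM hyM'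
    (fun p q => (hc p q).1)
  have h2 := val_le (n := T.dim X) (h := T.h Y) (h' := T.h X) (K := Real.exp (ε * T.dim X))
    (t := ε * T.dim X) (Real.exp_pos _).le (by linarith) (by linarith) hM hxM hxM' hyM hyM'
    (fun p q => (hc p q).2)
  unfold w
  rw [nv_cast, nv_cast, ← hd]
  exact ⟨h1, h2⟩

end

end Pool.Agent.Helper13.HD
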